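import Pool.Agent.helper48.PR.SpecL

set_option autoImplicit false

namespace Pool.Agent.PR

open Matrix

theorem LCSP_int (m : ℕ) (a : ℤ)
    (h : ∀ q : Nat.Primes, ((m : ℕ) : ℤ_[(q : ℕ)]) ∣ (a : ℤ_[(q : ℕ)])) : (m : ℤ) ∣ a := by
  rw [← Int.natAbs_dvd_natAbs, Int.natAbs_natCast, Nat.dvd_iff_prime_pow_dvd_dvd]
  intro q k hq hk
  have : Fact q.Prime := ⟨hq⟩
  have h1 : ((m : ℕ) : ℤ_[q]) ∣ (a : ℤ_[q]) := h ⟨q, hq⟩
  have h2 : ((q ^ k : ℕ) : ℤ_[q]) ∣ ((m : ℕ) : ℤ_[q]) := by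
    obtain ⟨c, rfl⟩ := hk
    exact ⟨(c : ℤ_[q]), by push_cast; ring⟩
  have h3 : (q : ℤ_[q]) ^ k ∣ (a : ℤ_[q]) := by
    have := h2.trans h1
    rwa [Nat.cast_pow] at this
  rw [PadicInt.pow_p_dvd_int_iff] at h3
  have h4 := Int.natAbs_dvd_natAbs.2 h3
  rwa [Int.natAbs_pow, Int.natAbs_natCast] at h4

section
variable {n : ℕ} {R : Type} [CommRing R]

theorem LCSP_iff (m : ℕ) (A B : Matrix (Fin n) (Fin n) R) :
    MC m A B ↔ ∃ C : Matrix (Fin n) (Fin n) R, A - B = (m : R) • C := by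
  constructor
  · intro h
    choose C hC using h
    refine ⟨Matrix.of C, ?_⟩
    ext i j
    rw [Matrix.sub_apply, Matrix.smul_apply, Matrix.of_apply, hC i j, smul_eq_mul]
  · rintro ⟨C, hC⟩ i j
    refine ⟨C i j, ?_⟩
    rw [← Matrix.sub_apply, hC, Matrix.smul_apply, smul_eq_mul]

theorem LCSP_mul (m : ℕ) (A B U V : Matrix (Fin n) (Fin n) R) (h : MC m A B) :
    MC m (U * A * V) (U * B * V) := by
  rw [LCSP_iff] at h ⊢
  obtain ⟨C, hC⟩ := h
  refine ⟨U * C * V, ?_⟩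
  rw [← sub_mul, ← mul_sub, hC, Matrix.mul_smul, Matrix.smul_mul]

theorem LCSP_symm (m : ℕ) (A B : Matrix (Fin n) (Fin n) R) (h : MC m A B) : MC m B A := by
  intro i j
  rw [← neg_sub]
  exact (dvd_neg).2 (h i j)

theorem LCSP_trans (m : ℕ) (A B C : Matrix (Fin n) (Fin n) R) (h : MC m A B) (h' : MC m B C) :
    MC m A C := by
  intro i j
  rw [← sub_add_sub_cancel (A i j) (B i j) (C i j)]
  exact dvd_add (h i j) (h' i j)

end

theorem LCSP (hLGG : LGG_stmt) (hCSP : CSP_stmt) : LCSP_stmt := by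
  intro n hn Λ _ hQL Q _ _ π f hf
  obtain ⟨π', X, Y, s, hXY, h1, -⟩ := hLGG n hn Λ hQL Q π f hf
  obtain ⟨m, hm, hker⟩ := hCSP n hn π'.ker inferInstance inferInstance
  refine ⟨m, hm, fun l hl => ?_⟩
  obtain ⟨γ, hγ, hγ2⟩ := h1 m hm l
  rw [← hγ]
  have key : ∀ q : Nat.Primes, MC m (stdM ℤ_[(q : ℕ)] γ) 1 := by
    intro q
    have h3 : MC m (X q * sdM (s q) ℤ_[(q : ℕ)] γ * Y q) 1 :=
      LCSP_trans m _ _ _ (LCSP_symm m _ _ (hγ2 q)) (hl q)
    have h4 := LCSP_mul m _ _ (Y q) (X q) h3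
    have h5 : Y q * (X q * sdM (s q) ℤ_[(q : ℕ)] γ * Y q) * X q = sdM (s q) ℤ_[(q : ℕ)] γ := by
      rw [← mul_assoc, ← mul_assoc, (hXY q).2, one_mul, mul_assoc, (hXY q).2, mul_one]
    rw [h5, mul_one, (hXY q).2] at h4
    unfold sdM at h4
    by_cases hs : s q = true
    · rw [if_pos hs] at h4
      exact h4
    · rw [if_neg hs] at h4
      have h6 : MC m (stdM ℤ_[(q : ℕ)] γ⁻¹) 1 := by
        intro i j
        have := h4 j i
        rw [duM, Matrix.transpose_apply] at this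
        by_cases hij : i = j
        · subst hij; exact this
        · rw [Matrix.one_apply_ne hij]
          rw [Matrix.one_apply_ne (Ne.symm hij)] at this
          exact this
      have h7 := LCSP_mul m _ _ (stdM ℤ_[(q : ℕ)] γ) 1 h6
      rw [stdM_mul_inv, mul_one, mul_one, mul_one] at h7
      exact LCSP_symm m _ _ h7
  have hint : ∀ i j, (m : ℤ) ∣ (γ : Matrix (Fin n) (Fin n) ℤ) i j -
      (1 : Matrix (Fin n) (Fin n) ℤ) i j := by
    intro i j
    refine LCSP_int m _ fun q => ?_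
    have := key q i j
    rw [stdM, Matrix.map_apply] at this
    rw [Int.cast_sub]
    by_cases hij : i = j
    · subst hij
      rw [Matrix.one_apply_eq] at this ⊢
      simpa using this
    · rw [Matrix.one_apply_ne hij] at this ⊢
      simpa using this
  have hmem : γ ∈ (Matrix.SpecialLinearGroup.map (n := Fin n) (Int.castRingHom (ZMod m))).ker := by
    rw [MonoidHom.mem_ker]
    ext i j
    have h8 := hint i j
    rw [← ZMod.intCast_zmod_eq_zero_iff_dvd, Int.cast_sub, sub_eq_zero] at h8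
    rw [Matrix.SpecialLinearGroup.map_apply_coe, RingHom.mapMatrix_apply, Matrix.map_apply,
      Matrix.SpecialLinearGroup.coe_one]
    rw [eq_intCast, h8]
    by_cases hij : i = j
    · subst hij; simp
    · rw [Matrix.one_apply_ne hij, Matrix.one_apply_ne hij]; simp
  exact hker hmem

end Pool.Agent.PR
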