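import Pool.Agent.helper48.PR.SpecL

set_option autoImplicit false

namespace Pool.Agent.PR

open Matrix

theorem LINT_int (m : ℕ) (a : ℤ)
    (h : ∀ q : Nat.Primes, ((m : ℕ) : ℤ_[(q : ℕ)]) ∣ (a : ℤ_[(q : ℕ)])) : (m : ℤ) ∣ a := by
  rw [← Int.natAbs_dvd_natAbs, Int.natAbs_natCast, Nat.dvd_iff_prime_pow_dvd_dvd]
  intro q k hq hk
  have : Fact q.Prime := ⟨hq⟩
  have h1 : ((m : ℕ) : ℤ_[q]) ∣ (a : ℤ_[q]) := h ⟨q, hq⟩
  have h2 : ((q ^ k : ℕ) : ℤ_[q]) ∣ ((m : ℕ) : ℤ_[q]) := by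
    obtain ⟨c, rfl⟩ := hk
    exact ⟨(c : ℤ_[q]), by push_cast; ring⟩
  have h3 : (q : ℤ_[q]) ^ k ∣ (a : ℤ_[q]) := by
    have := h2.trans h1
    rwa [Nat.cast_pow] at this
  rw [PadicInt.pow_p_dvd_int_iff] at h3
  have h4 := Int.natAbs_dvd_natAbs.2 h3
  rwa [Int.natAbs_pow, Int.natAbs_natCast] at h4

theorem LINT (hT : TRACE_stmt) : LINT_stmt := by
  intro n hn Λ _ hFG hQL f hf p l
  obtain ⟨t, ht, -⟩ := hT n hn Λ hFG hQL p p (f p) (f p) (hf p) (hf p)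
  set r : ℚ := t l with hr
  have key : ∀ q : Nat.Primes, ∃ z : ℤ_[(q : ℕ)], (z : ℚ_[(q : ℕ)]) = (r : ℚ_[(q : ℕ)]) := by
    intro q
    obtain ⟨u, hu, hu2⟩ := hT n hn Λ hFG hQL p q (f p) (f q) (hf p) (hf q)
    have h1 : u l = r := by
      have h2 := (hu l).symm.trans (ht l)
      exact_mod_cast h2
    rcases hu2 with h3 | h3
    · exact ⟨_, (h3 l).trans (by rw [h1])⟩
    · refine ⟨_, (h3 l⁻¹).trans ?_⟩
      rw [inv_inv, h1]
  have hden : (r.den : ℤ) ∣ r.num := by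
    refine LINT_int r.den r.num fun q => ?_
    obtain ⟨z, hz⟩ := key q
    refine ⟨z, ?_⟩
    have h4 : ((r.den : ℚ_[(q : ℕ)])) * (r : ℚ_[(q : ℕ)]) = (r.num : ℚ_[(q : ℕ)]) := by
      have h5 : (r.den : ℚ) * r = r.num := by
        rw [mul_comm]; exact Rat.mul_den_eq_num r
      exact_mod_cast congrArg (fun x : ℚ => (x : ℚ_[(q : ℕ)])) h5
    rw [← hz] at h4
    have h6 : (((r.num : ℤ_[(q : ℕ)])) : ℚ_[(q : ℕ)]) =
        (((r.den : ℕ) : ℤ_[(q : ℕ)]) * z : ℤ_[(q : ℕ)]) := by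
      push_cast
      exact h4.symm
    exact PadicInt.ext h6
  have hone : r.den = 1 := by
    have h7 : r.den ∣ r.num.natAbs := by
      have := Int.natAbs_dvd_natAbs.2 hden
      rwa [Int.natAbs_natCast] at this
    have h8 := Nat.Coprime.eq_one_of_dvd r.reduced.symm h7
    exact h8
  have hri : r = (r.num : ℚ) := by
    conv_lhs => rw [← Rat.num_div_den r, hone]
    simp
  refine ⟨r.num, ?_⟩
  apply PadicInt.ext
  rw [ht l, ← hr]
  conv_lhs => rw [hri]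
  push_cast
  rfl

end Pool.Agent.PR
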