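import Pool.Agent.helper48.PR.SpecC

set_option autoImplicit false

namespace Pool.Agent.PR

theorem C7_chooseA (n : ℕ) : ∀ k, 1 ≤ k → k + 1 ≤ n → n ≤ n.choose k := by
  induction n with
  | zero => intro k _ h; omega
  | succ n ih =>
    intro k hk hkn
    obtain ⟨k, rfl⟩ : ∃ j, k = j + 1 := ⟨k - 1, by omega⟩
    rw [Nat.choose_succ_succ']
    rcases Nat.eq_zero_or_pos k with h0 | h0
    · subst h0
      simp only [Nat.choose_zero_right, zero_add, Nat.choose_one_right]
      omega
    · have h1 := ih k h0 (by omega)
      have h2 : 0 < n.choose (k + 1) := Nat.choose_pos (by omega)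
      omega

theorem C7_chooseB (n k : ℕ) (h : 2 ≤ k) (h' : k + 2 ≤ n) : n < n.choose k := by
  obtain ⟨k, rfl⟩ : ∃ j, k = j + 1 := ⟨k - 1, by omega⟩
  obtain ⟨n, rfl⟩ : ∃ j, n = j + 1 := ⟨n - 1, by omega⟩
  rw [Nat.choose_succ_succ']
  have h1 := C7_chooseA n k (by omega) (by omega)
  have h2 := C7_chooseA n (k + 1) (by omega) (by omega)
  omega

theorem C7_perm {n : ℕ} (U S : Finset (Fin n)) (h : U.card = S.card) :
    ∃ σ : Equiv.Perm (Fin n), ∀ i, σ i ∈ S ↔ i ∈ U := by
  classical
  have e : {x // x ∈ U} ≃ {x // x ∈ S} := Fintype.equivOfCardEq (by simpa using h)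
  refine ⟨Equiv.extendSubtype e, fun i => ⟨fun hi => ?_, fun hi => Equiv.extendSubtype_mem e i hi⟩⟩
  by_contra hcon
  exact Equiv.extendSubtype_not_mem e i hcon hi

theorem C7 : C7_stmt := by
  intro n hn F _ _ a hpq
  classical
  have hc : ∀ (σ τ : Equiv.Perm (Fin n)), (∃ c, ∀ i, a (σ i) - a (τ i) = c) →
      ∀ i, a (σ i) = a (τ i) := by
    rintro σ τ ⟨c, hc⟩
    have h1 : ∑ i, (a (σ i) - a (τ i)) = 0 := by
      rw [Finset.sum_sub_distrib, Equiv.sum_comp σ a, Equiv.sum_comp τ a, sub_self]
    simp only [hc, Finset.sum_const, Finset.card_univ, Fintype.card_fin, nsmul_eq_mul] at h1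
    rcases mul_eq_zero.1 h1 with h2 | h2
    · exact absurd h2 (Nat.cast_ne_zero.2 (by omega))
    · intro i
      have := hc i
      rw [h2] at this
      exact sub_eq_zero.1 this
  by_cases hA : ∃ y : F, 2 ≤ (Finset.univ.filter fun j => a j = y).card ∧
      (Finset.univ.filter fun j => a j = y).card + 2 ≤ n
  · right
    obtain ⟨y, h2, h3⟩ := hA
    set S : Finset (Fin n) := Finset.univ.filter fun j => a j = y with hS
    have hex : ∀ U : Finset (Fin n), ∃ σ : Equiv.Perm (Fin n), U.card = S.card →
        ∀ i, σ i ∈ S ↔ i ∈ U := by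
      intro U
      by_cases hU : U.card = S.card
      · obtain ⟨σ, hσ⟩ := C7_perm U S hU
        exact ⟨σ, fun _ => hσ⟩
      · exact ⟨1, fun h => absurd h hU⟩
    choose f hf using hex
    refine ⟨(Finset.powersetCard S.card Finset.univ).image f, ?_, ?_⟩
    · rw [Finset.card_image_of_injOn, Finset.card_powersetCard, Finset.card_univ,
        Fintype.card_fin]
      · exact C7_chooseB n S.card h2 h3
      · intro U hU V hV hUV
        have hU' := (Finset.mem_powersetCard.1 (Finset.mem_coe.1 hU)).2
        have hV' := (Finset.mem_powersetCard.1 (Finset.mem_coe.1 hV)).2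
        ext i
        rw [← hf U hU' i, ← hf V hV' i, hUV]
    · intro σ hσ τ hτ hst
      obtain ⟨U, hU, rfl⟩ := Finset.mem_image.1 hσ
      obtain ⟨V, hV, rfl⟩ := Finset.mem_image.1 hτ
      have hU' := (Finset.mem_powersetCard.1 hU).2
      have hV' := (Finset.mem_powersetCard.1 hV).2
      have h4 := hc _ _ hst
      have : U = V := by
        ext i
        rw [← hf U hU' i, ← hf V hV' i, hS, Finset.mem_filter, Finset.mem_filter, h4 i]
        simp
      rw [this]
  · push Not at hA
    by_cases hB : ∃ y : F, 2 ≤ (Finset.univ.filter fun j => a j = y).card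
    · left
      obtain ⟨y, hy⟩ := hB
      have h5 := hA y hy
      have h6 : (Finset.univ.filter fun j => ¬ a j = y).card +
          (Finset.univ.filter fun j => a j = y).card = n := by
        have := Finset.card_filter_add_card_filter_not (s := (Finset.univ : Finset (Fin n)))
          (fun j => a j = y)
        rw [Finset.card_univ, Fintype.card_fin] at this
        omega
      have h7 : 0 < (Finset.univ.filter fun j => ¬ a j = y).card := by
        rw [Finset.card_pos]
        obtain ⟨p, q, hne⟩ := hpq
        by_cases hp : a p = y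
        · refine ⟨q, Finset.mem_filter.2 ⟨Finset.mem_univ _, fun hq => hne (hp.trans hq.symm)⟩⟩
        · exact ⟨p, Finset.mem_filter.2 ⟨Finset.mem_univ _, hp⟩⟩
      have h8 : (Finset.univ.filter fun j => ¬ a j = y).card = 1 := by omega
      obtain ⟨i₀, hi₀⟩ := Finset.card_eq_one.1 h8
      have h9 : i₀ ∈ Finset.univ.filter fun j => ¬ a j = y := by rw [hi₀]; simp
      refine ⟨i₀, a i₀, y, (Finset.mem_filter.1 h9).2, fun i => ?_⟩
      split_ifs with hi
      · rw [hi]
      · by_contra hcon
        have : i ∈ Finset.univ.filter fun j => ¬ a j = y :=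
          Finset.mem_filter.2 ⟨Finset.mem_univ _, hcon⟩
        rw [hi₀, Finset.mem_singleton] at this
        exact hi this
    · right
      push Not at hB
      have hinj : Function.Injective a := by
        intro i j hij
        by_contra hne
        have := hB (a i)
        have h10 : ({i, j} : Finset (Fin n)) ⊆ Finset.univ.filter fun l => a l = a i := by
          intro l hl
          rw [Finset.mem_insert, Finset.mem_singleton] at hl
          rcases hl with rfl | rfl
          · simp
          · simp [hij]
        have h11 := Finset.card_le_card h10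
        rw [Finset.card_pair hne] at h11
        omega
      refine ⟨Finset.univ, ?_, ?_⟩
      · rw [Finset.card_univ, Fintype.card_perm, Fintype.card_fin]
        exact Nat.lt_factorial_self hn
      · intro σ _ τ _ hst
        ext i
        exact congrArg Fin.val (hinj (hc σ τ hst i))

end Pool.Agent.PR
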