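import Pool.Agent.helper48.PR.SpecC

set_option autoImplicit false

namespace Pool.Agent.PR

open Matrix

theorem C8a : C8a_stmt := by
  intro n F _ ι κ H v μ hv hH hsep
  classical
  have key : ∀ (s : Finset κ) (g : κ → F), ∑ k ∈ s, g k • v k = 0 → ∀ k ∈ s, g k = 0 := by
    intro s
    induction s using Finset.induction_on with
    | empty => intro g _ k hk; exact absurd hk (Finset.notMem_empty k)
    | insert k0 s hk0 ih =>
      intro g hg
      rw [Finset.sum_insert hk0] at hg
      have h1 : ∀ k ∈ s, g k = 0 := by
        intro k hk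
        have hne : k ≠ k0 := fun h => hk0 (h ▸ hk)
        obtain ⟨t, ht⟩ := hsep k k0 hne
        have h2 := congrArg (fun x => H t *ᵥ x) hg
        simp only [mulVec_add, mulVec_smul, mulVec_sum, mulVec_zero, hH] at h2
        have h3 := congrArg (fun x => μ k0 t • x) hg
        simp only [smul_add, Finset.smul_sum, smul_zero] at h3
        have h4 : ∑ l ∈ s, (g l * (μ l t - μ k0 t)) • v l = 0 := by
          have h5 : ∑ l ∈ s, (g l * (μ l t - μ k0 t)) • v l =
              (g k0 • μ k0 t • v k0 + ∑ l ∈ s, g l • μ l t • v l) -
              (μ k0 t • g k0 • v k0 + ∑ l ∈ s, μ k0 t • g l • v l) := by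
            rw [smul_comm (g k0) (μ k0 t), add_sub_add_left_eq_sub, ← Finset.sum_sub_distrib]
            refine Finset.sum_congr rfl fun l _ => ?_
            rw [smul_comm (μ k0 t), ← smul_sub, ← sub_smul, smul_smul]
          rw [h5, h2, h3, sub_zero]
        have h6 := ih _ h4 k hk
        rcases mul_eq_zero.1 h6 with h7 | h7
        · exact h7
        · exact absurd (sub_eq_zero.1 h7) ht
      have h8 : ∑ k ∈ s, g k • v k = 0 := Finset.sum_eq_zero fun k hk => by rw [h1 k hk, zero_smul]
      rw [h8, add_zero] at hg
      intro k hk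
      rcases Finset.mem_insert.1 hk with rfl | hk
      · rcases smul_eq_zero.1 hg with h9 | h9
        · exact h9
        · exact absurd h9 (hv _)
      · exact h1 k hk
  rw [linearIndependent_iff']
  exact key

end Pool.Agent.PR
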